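import Pool.Agent.Lib.MP_bd2ea4_al.Eng

/-!
# Groups of exponent 7 with commuting conjugates

If in a group of exponent 7, for every pair `a, b` one of the two elements commutes with one of its
conjugates by a non-trivial power of the other, then `b` commutes with `a⁻¹ * b * a` for all `a, b`
(the second Engel condition), and every finitely generated subgroup is finite.
-/

set_option autoImplicit false

namespace Pool.Agent.Results.MP_bd2ea4_al.CommutingConjugates

theorem result (G : Type) [Group G] (h7 : ∀ g : G, g ^ 7 = 1)
    (hd : ∀ a b : G, ∃ k : ℕ, ¬ 7 ∣ k ∧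
      (Commute a ((b ^ k)⁻¹ * a * b ^ k) ∨ Commute b ((a ^ k)⁻¹ * b * a ^ k))) :
    (∀ a b : G, Commute b (a⁻¹ * b * a)) ∧
      ∀ S : Finset G, Finite (Subgroup.closure (S : Set G)) :=
  ⟨fun a b => BD7.partC h7 hd a b, fun S => BD7.partC' h7 hd S⟩

end Pool.Agent.Results.MP_bd2ea4_al.CommutingConjugates
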