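import Pool.Agent.Lib.MP_bd2ea4_al.Dir

/-!
# Groups of exponent 7 with commuting directions

If in a group of exponent 7 every pair `a, b` has a direction (a word `a ^ i * b ^ j` with `7 ∤ j`
which commutes with one of its conjugates by a power `a ^ k`, `7 ∤ k`, or the same with `a`, `b`
exchanged), then every subgroup with two generators is finite, of order at most `7 ^ 7`.
-/

set_option autoImplicit false

namespace Pool.Agent.Results.MP_bd2ea4_al.CommutingDirections

theorem result (G : Type) [Group G] (h7 : ∀ g : G, g ^ 7 = 1)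
    (hd : ∀ a b : G, ∃ i j k : ℕ, ¬ 7 ∣ j ∧ ¬ 7 ∣ k ∧
      (Commute (a ^ i * b ^ j) ((a ^ k)⁻¹ * (a ^ i * b ^ j) * a ^ k) ∨
        Commute (b ^ i * a ^ j) ((b ^ k)⁻¹ * (b ^ i * a ^ j) * b ^ k)))
    (a b : G) :
    Finite (Subgroup.closure ({a, b} : Set G)) ∧
      Nat.card (Subgroup.closure ({a, b} : Set G)) ≤ 7 ^ 7 ∧
      ∃ x y : G, Subgroup.closure ({x, y} : Set G) = Subgroup.closure ({a, b} : Set G) ∧
        ∀ k : ℕ, Commute x ((y ^ k)⁻¹ * x * y ^ k) := by
  obtain ⟨x, y, h1, h2, h3, h4⟩ := BD7.partA h7 hd a b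
  exact ⟨h3, h4, x, y, h1, h2⟩

end Pool.Agent.Results.MP_bd2ea4_al.CommutingDirections
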