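import Pool.Agent.Lib.MP_bd2ea4_al.Eng

/-!
# Groups of exponent 7: the subgroup generated by the weak right 2-Engel elements

Call `a` good if every `b` commutes with one of its conjugates by a power `a ^ k`, `7 ∤ k` (`k` may
depend on `b`). In a group of exponent 7 the conjugates of a good element commute pairwise, and the
subgroup generated by all good elements is locally finite; in particular a group of exponent 7
which is generated by good elements is locally finite.
-/

set_option autoImplicit false

namespace Pool.Agent.Results.MP_bd2ea4_al.WeakRightEngel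

open BD7 in
/-- The subgroup generated by the good elements is locally finite. -/
theorem closure_good {G : Type} [Group G] (h7 : ∀ g : G, g ^ 7 = 1) (S : Finset G)
    (hS : ∀ s ∈ S, s ∈ Subgroup.closure {a : G | Good a}) :
    Finite (Subgroup.closure (S : Set G)) := by
  classical
  -- every such element is in the subgroup generated by a finite set of right 2-Engel elements
  have hfin : ∀ g : G, g ∈ Subgroup.closure {a : G | Good a} →
      ∃ T : Finset G, (∀ a ∈ T, ∀ b : G, Commute b (a⁻¹ * b * a)) ∧
        g ∈ Subgroup.closure (T : Set G) := by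
    intro g hg
    induction hg using Subgroup.closure_induction with
    | mem s hs =>
      refine ⟨{s}, ?_, Subgroup.subset_closure (by simp)⟩
      intro a ha
      rw [Finset.mem_singleton] at ha
      rw [ha]
      exact good_one h7 hs
    | one => exact ⟨∅, by simp, Subgroup.one_mem _⟩
    | mul u v _ _ hu hv =>
      obtain ⟨T, hT, hu⟩ := hu
      obtain ⟨T', hT', hv⟩ := hv
      refine ⟨T ∪ T', ?_, ?_⟩
      · intro a ha
        rcases Finset.mem_union.1 ha with h | h
        · exact hT a h
        · exact hT' a h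
      · rw [Finset.coe_union]
        exact Subgroup.mul_mem _ (Subgroup.closure_mono Set.subset_union_left hu)
          (Subgroup.closure_mono Set.subset_union_right hv)
    | inv u _ hu =>
      obtain ⟨T, hT, hu⟩ := hu
      exact ⟨T, hT, Subgroup.inv_mem _ hu⟩
  have hfin' : ∀ g : G, ∃ T : Finset G, (∀ a ∈ T, ∀ b : G, Commute b (a⁻¹ * b * a)) ∧
      (g ∈ Subgroup.closure {a : G | Good a} → g ∈ Subgroup.closure (T : Set G)) := by
    intro g
    by_cases hg : g ∈ Subgroup.closure {a : G | Good a}
    · obtain ⟨T, h1, h2⟩ := hfin g hg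
      exact ⟨T, h1, fun _ => h2⟩
    · exact ⟨∅, by simp, fun h => absurd h hg⟩
  choose T hT hmem using hfin'
  obtain ⟨K, -, hK, hm⟩ := LF_finset h7 (S.biUnion T) (by
    intro a ha
    obtain ⟨s, -, hs⟩ := Finset.mem_biUnion.1 ha
    exact hT s a hs)
  refine hK _ ?_ ⟨S, rfl⟩
  rw [Subgroup.closure_le]
  intro s hs
  have h1 : Subgroup.closure (T s : Set G) ≤ K := by
    rw [Subgroup.closure_le]
    intro a ha
    exact hm a (Finset.mem_biUnion.2 ⟨s, hs, ha⟩)
  exact h1 (hmem s (hS s hs))

theorem result (G : Type) [Group G] (h7 : ∀ g : G, g ^ 7 = 1) :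
    (∀ a : G, (∀ b : G, ∃ k : ℕ, ¬ 7 ∣ k ∧ Commute b ((a ^ k)⁻¹ * b * a ^ k)) →
      (∀ b : G, Commute b (a⁻¹ * b * a)) ∧
        ∀ g h : G, Commute (g⁻¹ * a * g) (h⁻¹ * a * h)) ∧
    ∀ S : Finset G,
      (∀ s ∈ S, s ∈ Subgroup.closure
        {a : G | ∀ b : G, ∃ k : ℕ, ¬ 7 ∣ k ∧ Commute b ((a ^ k)⁻¹ * b * a ^ k)}) →
      Finite (Subgroup.closure (S : Set G)) :=
  ⟨fun a ha => BD7.partB h7 a ha, fun S hS => closure_good h7 S hS⟩

end Pool.Agent.Results.MP_bd2ea4_al.WeakRightEngel
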